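import Pool.Agent.Y45.MON.StmV
import Pool.Agent.TH54.BU.QuoEA

/-!
# MON V3: the quotient metric with variable exponents (project of helper45)
-/

set_option autoImplicit false

namespace Pool.Agent.Y288.MON

open Pool.Agent.TH54.BU Pool.Agent.Y45.MON

variable {G : Type} [Group G] {H : GH G} {c θ T : ℕ} (L : LS H c θ T)

theorem qo_four (hC : CloseStmt) {n : L.ι → ℕ} {M : Subgroup G} [hM : M.Normal] (F : Fv L n M)
    {E : GH G} {Θ : ℕ}
    (C : L.Cone E Θ) (hn : ∀ i, 24 * L.thr + T * (2 * c + 1) + 4 * (T * Θ + 1) ≤ n i)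
    (u p v z : G ⧸ M) :
    E.qoLen M (u⁻¹ * v) + E.qoLen M (z⁻¹ * p) ≤
      max (E.qoLen M (u⁻¹ * z) + E.qoLen M (v⁻¹ * p)) (E.qoLen M (u⁻¹ * p) + E.qoLen M (v⁻¹ * z)) + E.D := by
  obtain ⟨P0, h0⟩ := QuotientGroup.mk_surjective u
  obtain ⟨P1, h1, d1⟩ := E.qoLen_lift M P0 p
  obtain ⟨P2, h2, d2⟩ := E.qoLen_lift M P1 v
  obtain ⟨P3, h3, d3⟩ := E.qoLen_lift M P2 z
  obtain ⟨P4, h4, d4⟩ := E.qoLen_lift M P3 u
  have h0' : (P0 : G ⧸ M) = u := h0
  obtain ⟨m, hm, hm4⟩ := GH.qo_of_coe_eq M (h0'.trans h4.symm)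
  rw [h0'] at d1
  rw [h1] at d2
  rw [h2] at d3
  rw [h3] at d4
  let P : ℕ → G := fun j => match j with
    | 0 => P0
    | 1 => P1
    | 2 => P2
    | 3 => P3
    | _ => P4
  let l : ℕ → ℕ := fun j => match j with
    | 0 => E.qoLen M (u⁻¹ * p)
    | 1 => E.qoLen M (p⁻¹ * v)
    | 2 => E.qoLen M (v⁻¹ * z)
    | _ => E.qoLen M (z⁻¹ * u)
  obtain ⟨P', hR, hc, hP'⟩ := hC G H c θ T L n M F (T * Θ + 1) 4
    (fun i => by have := hn i; omega) (fun i => by have := hn i; omega)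
    (fun j a b => E.d a b ≤ l j)
    (fun j _ m _ a b h => by rw [E.d_mul]; exact h)
    (fun j _ a b h i u' hs l' => by
      refine (L.qo_rot C ?_ _).trans h
      have q1 := L.qo_lin i (L.s i u' a b)
      have q2 : ((T * Θ + 1 : ℕ) : ℤ) ≤ (T : ℤ) * L.D i u' a b := hs.trans q1
      have q3 : T * Θ + 1 ≤ T * L.D i u' a b := by exact_mod_cast q2
      by_contra h5
      push Not at h5
      have q4 : T * L.D i u' a b ≤ T * Θ := Nat.mul_le_mul_left T h5.le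
      omega)
    P (fun j hj => by
      rcases (by omega : j = 0 ∨ j = 1 ∨ j = 2 ∨ j = 3) with rfl | rfl | rfl | rfl
      · exact d1.le
      · exact d2.le
      · exact d3.le
      · exact d4.le)
    ⟨m, hm, hm4⟩
  have e : ∀ j ≤ 4, (P' j : G ⧸ M) = (P j : G ⧸ M) := by
    intro j hj
    obtain ⟨m', hm', h⟩ := hP' j hj
    rw [h]
    exact GH.qo_coe_mul M hm' _
  have r0 : E.d (P' 0) (P' 1) ≤ E.qoLen M (u⁻¹ * p) := hR 0 (by norm_num)
  have r1 : E.d (P' 1) (P' 2) ≤ E.qoLen M (p⁻¹ * v) := hR 1 (by norm_num)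
  have r2 : E.d (P' 2) (P' 3) ≤ E.qoLen M (v⁻¹ * z) := hR 2 (by norm_num)
  have r3 : E.d (P' 3) (P' 4) ≤ E.qoLen M (z⁻¹ * u) := hR 3 (by norm_num)
  rw [hc] at r3
  have f := E.fp (P' 0) (P' 2) (P' 3) (P' 1)
  have g1 := E.qoLen_d M (P' 0) (P' 2)
  have g2 := E.qoLen_d M (P' 3) (P' 1)
  rw [e 0 (by norm_num), e 2 (by norm_num)] at g1
  rw [e 3 (by norm_num), e 1 (by norm_num)] at g2
  have a0 : (P 0 : G ⧸ M) = u := h0'
  have a1 : (P 1 : G ⧸ M) = p := h1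
  have a2 : (P 2 : G ⧸ M) = v := h2
  have a3 : (P 3 : G ⧸ M) = z := h3
  rw [a0, a2] at g1
  rw [a3, a1] at g2
  have c1 : E.qoLen M (z⁻¹ * u) = E.qoLen M (u⁻¹ * z) := by
    rw [← E.qoLen_inv]; congr 1; group
  have c2 : E.qoLen M (p⁻¹ * v) = E.qoLen M (v⁻¹ * p) := by
    rw [← E.qoLen_inv]; congr 1; group
  have c3 := E.d_comm (P' 0) (P' 3)
  have c4 := E.d_comm (P' 1) (P' 2)
  omega

/-- job V3 -/
theorem quo_of_close (hC : CloseStmt) : QuoStmt := by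
  intro G _ H c θ T L n M _ F E Θ C _ hn
  refine ⟨{ len := E.qoLen M
            D := 2 * E.D + 2
            len_one := E.qoLen_one M
            eq_one := E.qoLen_eq_one M
            len_inv := E.qoLen_inv M
            len_mul := E.qoLen_mul M
            fp' := fun u v w z => ?_
            step := E.qoLen_step M }, rfl, fun g => E.qoLen_le M g, fun q => E.qoLen_rep M q⟩
  have h := qo_four L hC F C hn u z v w
  omega

end Pool.Agent.Y288.MON
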