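import Pool.Agent.Y45.MON.StmV
import Pool.Agent.TH54.BU.Surv

/-!
# MON V4: angles, surviving elements, stable length and torsion of the quotient with variable
exponents (project of helper45)
-/

set_option autoImplicit false

namespace Pool.Agent.Y288.MON

open Pool.Agent.TH54.BU Pool.Agent.Y45.MON

/-- job V4, first part -/
theorem angle : AngleStmt := by
  intro G _ H c θ T L n M hrot z hz hl hns hn i u a b
  have hcm : H.CMin z := by
    intro w
    have := hz 1 M.one_mem w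
    rwa [one_mul] at this
  have hsup := (H.sup_of_cmin hcm hl).1
  have hov := L.az_ovz0 hsup hns i
  obtain ⟨v, N, hmax⟩ := L.az_max i hov
  by_contra hcon
  push Not at hcon
  obtain ⟨u1, N1, h1, -⟩ := L.az_red i u z a b
  have h2 := hmax u1 N1
  have hni := hn i
  set S := (L.s i v 1 (z ^ N)).natAbs with hS
  have h3 : n i + T * (1000 * (H.D + c + θ + 1)) < 2 * S := by
    rw [Int.abs_eq_natAbs, h1] at hcon
    have : n i + T * (1000 * (H.D + c + θ + 1)) < 2 * (L.s i u1 1 (z ^ N1)).natAbs := by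
      exact_mod_cast hcon
    omega
  have hT := L.cl_T i
  have h4 : 1000 * (H.D + c + θ + 1) ≤ L.D i v 1 (z ^ N) :=
    L.cl_D_ge i v 1 (z ^ N) _ (by omega)
  obtain ⟨a1, a2, a3, a4, a5⟩ := L.az_core hsup (i := i) (u := v) (N := N) (by omega)
  have c1 := H.az_ax hsup a1
  have c2 := H.az_ax hsup a2
  have hs1 : L.s i v 1 (L.pr i v (z ^ N)) = L.s i v 1 (z ^ N) := L.az_s_pr_right i v _ _
  have hs2 : L.s i v (L.pr i v 1) (L.pr i v (z ^ N)) = L.s i v 1 (z ^ N) := by
    rw [L.az_s_pr_right, L.az_s_pr_left]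
  have hovv := hov v N
  set q1 := L.pr i v 1 with hq1
  set q2 := L.pr i v (z ^ N) with hq2
  have n1 := H.nr (a := 1) (b := z ^ (N + 1)) (x := q2) (y := z * q1) (c := c + 2 * H.D)
    (by rw [H.d_one, H.d_one]; exact c2.1) (by rw [H.d_one, H.d_one]; exact c1.2.1)
  rw [H.d_one, H.d_one] at n1
  have key : (L.s i v q2 (z * q1)).natAbs ≤ T * (θ + 105 * (H.D + c + 1)) := by
    rcases le_total (H.len q2) (H.len (z * q1)) with hle | hle
    · have m1 := L.az_mono (v := 1) (y := z * q1) (w := z ^ (N + 1)) (e := c + 2 * H.D) i v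
        (by rw [H.d_one, H.d_one]; exact c1.2.1)
      have m2 := L.az_mono (v := 1) (y := q2) (w := z * q1) (e := 2 * c + 5 * H.D) i v
        (by rw [H.d_one, H.d_one]; omega)
      have m3 := hmax v (N + 1)
      rw [hs1] at m2
      have m4 : 2 * (T * (3 * c + (c + 2 * H.D))) + 2 * (T * (3 * c + (2 * c + 5 * H.D))) ≤
          T * (θ + 105 * (H.D + c + 1)) := by
        have : 2 * (T * (3 * c + (c + 2 * H.D))) + 2 * (T * (3 * c + (2 * c + 5 * H.D))) =
          T * (18 * c + 14 * H.D) := by ring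
        rw [this]
        exact Nat.mul_le_mul_left _ (by omega)
      omega
    · have l1 := L.az_lip i v q2 (z * q1)
      have l2 := L.wf_lin_z i (L.s i v q2 (z * q1))
      refine l2.trans (Nat.mul_le_mul_left _ ?_)
      unfold LS.D at l1
      omega
  have hs3 := L.wf_s_add i v q1 q2 (z * q1)
  rw [hs2] at hs3
  have e1 : T * (1000 * (H.D + c + θ + 1)) = 2 * (T * (θ + 105 * (H.D + c + 1))) +
      T * (998 * θ + 790 * (H.D + c + 1)) := by ring
  have e2 : T * (2 * c + (2 * c + 5 * H.D) + 1) ≤ T * (998 * θ + 790 * (H.D + c + 1)) :=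
    Nat.mul_le_mul_left _ (by omega)
  have h5 : n i + T * (2 * c + (2 * c + 5 * H.D) + 1) ≤ 2 * (L.s i v q1 (z * q1)).natAbs := by
    omega
  obtain ⟨k, hk⟩ := L.shorten (2 * c + 5 * H.D) (n := n i) (i := i) (u := v) (p := q1)
    (q := z * q1)
    (by omega) (by rw [Int.abs_eq_natAbs]; exact_mod_cast h5)
  have h6 := hz (L.rt i v (n i * k)) (hrot i v k) q1
  have h7 : H.len (q1⁻¹ * (L.rt i v (n i * k) * z) * q1) =
      H.d q1 (L.rt i v (n i * k) * (z * q1)) := by
    unfold GH.d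
    congr 1
    simp only [mul_assoc]
  omega

/-- job V4, second part -/
theorem surv (hCM : ConeMinStmt) : SurvStmt := by
  intro G _ H c θ T L n M _ F E Θ C hn Q hQ z hz hl hns hang m
  obtain ⟨g, hg1, hg2⟩ := hQ ((z : G ⧸ M) ^ m)
  have hmem : g * (z ^ m)⁻¹ ∈ M := by
    have h1 : ((g * (z ^ m)⁻¹ : G) : G ⧸ M) = 1 := by
      rw [QuotientGroup.mk_mul, QuotientGroup.mk_inv, QuotientGroup.mk_pow, hg1]
      group
    exact (QuotientGroup.eq_one_iff _).1 h1
  have h1 : E.d 1 (z ^ m) ≤ Q.len ((z : G ⧸ M) ^ m) := by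
    have := hCM G H c θ T L n M F E Θ C hn 1 (z ^ m) (fun i u => by
      have := hang i u 0 m
      simpa using this) _ hmem
    rw [inv_mul_cancel_right, E.d_one g, hg2] at this
    exact this
  set X := θ + 2 * Θ + 100 * (H.D + c + 1) with hX
  have h2 : H.d 1 (z ^ m) ≤ (H.len z + X + 1) * E.d 1 (z ^ m) := by
    have := C.e3 (H.len z + θ + 100 * (H.D + c + 1)) 1 (z ^ m) (fun i u => by
      have := L.ovz hz hl hns i u 0 m
      simpa using this)
    refine this.trans (Nat.mul_le_mul_right _ ?_)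
    rw [hX]
    omega
  rw [H.d_one] at h2
  have h3 := H.surv_sup_pow (H.sup_of_cmin hz hl).1 m
  have h4 : m * (2 * H.D) * 2 ≤ m * H.len z := by
    have : 2 * H.D * 2 ≤ H.len z := by omega
    nlinarith
  have h5 : m * H.len z ≤ 2 * ((H.len z + X + 1) * Q.len ((z : G ⧸ M) ^ m)) := by
    have : (H.len z + X + 1) * E.d 1 (z ^ m) ≤ (H.len z + X + 1) * Q.len ((z : G ⧸ M) ^ m) :=
      Nat.mul_le_mul_left _ h1
    omega
  have hz0 : 1 ≤ H.len z := by omega
  have h6 : H.len z + X + 1 ≤ H.len z * (X + 2) := by nlinarith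
  have h7 : H.len z * m ≤ H.len z * ((2 * (X + 2)) * Q.len ((z : G ⧸ M) ^ m)) := by
    calc H.len z * m = m * H.len z := by ring
      _ ≤ 2 * ((H.len z + X + 1) * Q.len ((z : G ⧸ M) ^ m)) := h5
      _ ≤ 2 * ((H.len z * (X + 2)) * Q.len ((z : G ⧸ M) ^ m)) :=
        Nat.mul_le_mul_left _ (Nat.mul_le_mul_right _ h6)
      _ = _ := by ring
  exact Nat.le_of_mul_le_mul_left h7 hz0

/-- every class of the quotient has a lift which is torsion or short, or has linear growth -/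
theorem surv_cases (hCM : ConeMinStmt) {G : Type} [Group G] {H : GH G} {c θ T : ℕ}
    {L : LS H c θ T}
    {K B p L1 Θ : ℕ} {n : L.ι → ℕ} {E : GH G} {M : Subgroup G} [M.Normal] {Q : GH (G ⧸ M)}
    (S : Sv L K B p L1 Θ n E M Q)
    (hn : ∀ i, 4 * T * (1000 * (H.D + c + θ + 1)) + 4 * T * Θ + 48 * L.thr + 4 ≤ n i)
    (q : G ⧸ M) :
    (∃ g : G, (g : G ⧸ M) = q ∧ (IsOfFinOrder g ∨ L.Short g)) ∨
      ∀ m : ℕ, m ≤ (2 * (θ + 2 * Θ + 100 * (H.D + c + 1) + 2)) * Q.len (q ^ m) := by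
  classical
  -- the conjugates of the lifts
  have hex : ∃ k : ℕ, ∃ g u : G, (g : G ⧸ M) = q ∧ H.len (u⁻¹ * g * u) = k := by
    obtain ⟨g, hg, -⟩ := S.lift q
    exact ⟨_, g, 1, hg, rfl⟩
  obtain ⟨g, u, hg, hk⟩ := Nat.find_spec hex
  have hmin : ∀ g' u' : G, (g' : G ⧸ M) = q → H.len (u⁻¹ * g * u) ≤ H.len (u'⁻¹ * g' * u') := by
    intro g' u' h'
    rw [hk]
    exact Nat.find_min' hex ⟨g', u', h', rfl⟩
  set z := u⁻¹ * g * u with hz
  have hgz : g = u * z * u⁻¹ := by rw [hz]; group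
  have hzM : ∀ m ∈ M, ∀ v : G, H.len z ≤ H.len (v⁻¹ * (m * z) * v) := by
    intro m hm v
    have h1 : ((u * m * u⁻¹ * g : G) : G ⧸ M) = q := by
      have h2 : ((u * m * u⁻¹ : G) : G ⧸ M) = 1 :=
        (QuotientGroup.eq_one_iff _).2 (S.fil.normal.conj_mem m hm u)
      rw [QuotientGroup.mk_mul, h2, one_mul, hg]
    have := hmin (u * m * u⁻¹ * g) (u * v) h1
    rwa [show (u * v)⁻¹ * (u * m * u⁻¹ * g) * (u * v) = v⁻¹ * (m * z) * v by
      rw [hz]; group] at this
  have hzC : H.CMin z := by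
    intro v
    have := hzM 1 M.one_mem v
    rwa [one_mul] at this
  by_cases hf : IsOfFinOrder z
  · left
    refine ⟨g, hg, Or.inl ?_⟩
    rw [hgz]
    have := (MulAut.conj u).toMonoidHom.isOfFinOrder hf
    simpa using this
  by_cases hs : L.Short z
  · left
    refine ⟨g, hg, Or.inr ?_⟩
    obtain ⟨i, v, k, hv⟩ := hs
    refine ⟨i, u * v, k, ?_⟩
    rw [hgz, hv]
    group
  right
  have hlen : 4 * H.D + 4 ≤ H.len z := by
    by_contra hcon
    have h1 := S.hL1
    exact hs (S.short z hf (by omega))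
  have hthr : L.thr = T * (2 * c + θ + 1) := rfl
  have e1 : 4 * T * (1000 * (H.D + c + θ + 1)) = 4 * (T * (1000 * (H.D + c + θ + 1))) := by ring
  have e2 : 4 * T * Θ = 4 * (T * Θ) := by ring
  rw [e1, e2] at hn
  have hn1 : ∀ i, T * (2 * c + 1) + 24 * L.thr ≤ n i := by
    intro i
    have := hn i
    have : T * (2 * c + 1) ≤ L.thr := by
      rw [hthr]
      exact Nat.mul_le_mul_left _ (by omega)
    omega
  have hang : ∀ (i : L.ι) (v : G) (a b : ℤ),
      |L.s i v (z ^ a) (z ^ b)| + T * Θ + 12 * L.thr < n i := by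
    intro i v a b
    have h1 := angle G H c θ T L n M S.fil.rot z hzM hlen hs
      (fun j => by have := hn j; omega) i v a b
    have h2 : (4 * ((T : ℤ) * (1000 * (H.D + c + θ + 1))) + 4 * ((T : ℤ) * Θ) + 48 * L.thr + 4)
        ≤ n i := by exact_mod_cast hn i
    have h3 : (0 : ℤ) ≤ (T : ℤ) * (1000 * (H.D + c + θ + 1)) := by positivity
    have h4 : (0 : ℤ) ≤ (T : ℤ) * Θ := by positivity
    have h5 : (0 : ℤ) ≤ (L.thr : ℤ) := by positivity
    linarith
  intro m
  set Te := 2 * (θ + 2 * Θ + 100 * (H.D + c + 1) + 2) with hTe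
  have hsurv : ∀ m : ℕ, m ≤ Te * Q.len ((z : G ⧸ M) ^ m) := fun m =>
    surv hCM G H c θ T L n M S.fil E Θ S.cone hn1 Q S.lift z hzC hlen hs hang m
  have hzq : ∀ k : ℕ, (z : G ⧸ M) ^ k = (u : G ⧸ M)⁻¹ * q ^ k * (u : G ⧸ M) := by
    intro k
    have h1 : (z : G ⧸ M) = (u : G ⧸ M)⁻¹ * q * (u : G ⧸ M)⁻¹⁻¹ := by
      rw [hz, QuotientGroup.mk_mul, QuotientGroup.mk_mul, QuotientGroup.mk_inv, hg, inv_inv]
    rw [h1, conj_pow, inv_inv]
  by_contra hcon
  push Not at hcon
  set k := Te * (2 * Q.len (u : G ⧸ M)) + 1 with hk'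
  have h1 := hsurv (m * k)
  rw [hzq] at h1
  have h2 : Q.len ((u : G ⧸ M)⁻¹ * q ^ (m * k) * (u : G ⧸ M)) ≤
      k * Q.len (q ^ m) + 2 * Q.len (u : G ⧸ M) := by
    have a1 := Q.len_mul ((u : G ⧸ M)⁻¹ * q ^ (m * k)) (u : G ⧸ M)
    have a2 := Q.len_mul ((u : G ⧸ M)⁻¹) (q ^ (m * k))
    rw [Q.len_inv] at a2
    have a3 := Q.surv_len_pow (q ^ m) k
    rw [← pow_mul] at a3
    omega
  have h3 : m * k ≤ Te * (k * Q.len (q ^ m) + 2 * Q.len (u : G ⧸ M)) :=
    h1.trans (Nat.mul_le_mul_left _ h2)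
  have h4 : (Te * Q.len (q ^ m) + 1) * k ≤ m * k := Nat.mul_le_mul_right _ hcon
  have h5 : Te * (k * Q.len (q ^ m) + 2 * Q.len (u : G ⧸ M)) =
      Te * Q.len (q ^ m) * k + Te * (2 * Q.len (u : G ⧸ M)) := by ring
  have h6 : (Te * Q.len (q ^ m) + 1) * k = Te * Q.len (q ^ m) * k + k := by ring
  omega

/-- job V4, third part: stable lengths and torsion in the quotient -/
theorem stab_tor (hCM : ConeMinStmt) : StabTorStmt := by
  intro G _ H c θ T L K B p L1 Θ n E M _ Q S hn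
  constructor
  · intro q hq
    rcases surv_cases hCM S hn q with ⟨g, hg, h | h⟩ | h
    · exfalso
      apply hq
      rw [← hg]
      exact (QuotientGroup.mk' M).isOfFinOrder h
    · exfalso
      apply hq
      obtain ⟨i, u, k, hk⟩ := h
      rw [isOfFinOrder_iff_pow_eq_one]
      refine ⟨n i, by have := hn i; omega, ?_⟩
      have h1 : g ^ n i = L.rt i u (n i * k) := by
        unfold LS.rt
        rw [hk, conj_pow, ← zpow_natCast (L.x i ^ k) (n i), ← zpow_mul, mul_comm k]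
      rw [← hg, ← QuotientGroup.mk_pow, QuotientGroup.eq_one_iff, h1]
      exact S.fil.rot i u k
    · exact h
  · intro q hq
    rcases surv_cases hCM S hn q with h | h
    · exact h
    · exfalso
      obtain ⟨m, hm, h1⟩ := (isOfFinOrder_iff_pow_eq_one).1 hq
      have := h m
      rw [h1, Q.len_one] at this
      omega

end Pool.Agent.Y288.MON
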